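import Mathlib
import Pool.Agent.W80.GB.Mu

/-!
Both signs of the Moebius and of the Liouville function at the values of an arbitrary positive
definite quadratic polynomial `a n^2 + b n + c` (any leading coefficient).

Method: the Matomaki-Radziwill theorem for the angles of the elements of an imaginary quadratic
order (project GA of helper78), here for elements with norm prime to `a`, gives a positive
proportion of pairs of primitive elements of the order of discriminant `b^2 - 4 a c` with small
determinant and with norms prime to `a` of different parity. The product of the two norms is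
refactored, moving one small prime in a prescribed residue class from one factor to the other, such
that it becomes, up to squares and a common factor, a product of two values of the polynomial.
-/

set_option autoImplicit false

/-- Let `f(n) = a n^2 + b n + c` be a positive definite quadratic polynomial with integer
coefficients and let `e` be `1` or `-1`. For every `ε > 0` and all large `N` at least `N^(1-ε)` of the
integers `|n| ≤ N` have `f(n) = s^2 m` with `s ≤ N^ε` and `μ(m) = e`; and the Liouville function
takes the value `e` at `f(n)` for infinitely many positive integers `n`. -/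
theorem Pool.Agent.W80.GE.definite_signs (a b c : ℤ) (ha : 0 < a)
    (hD : b ^ 2 - 4 * a * c < 0) (e : ℤ) (he : e = 1 ∨ e = -1) :
    (∀ ε : ℝ, 0 < ε → ∃ N₀ : ℕ, ∀ N : ℕ, N₀ ≤ N → (N : ℝ) ^ (1 - ε) ≤
      (Set.ncard {n : ℤ | |n| ≤ (N : ℤ) ∧ ∃ s m : ℕ, (s : ℝ) ≤ (N : ℝ) ^ ε ∧
        a * n ^ 2 + b * n + c = (s : ℤ) ^ 2 * m ∧ ArithmeticFunction.moebius m = e} : ℝ)) ∧
    {n : ℕ | 1 ≤ n ∧
      (-1 : ℤ) ^ ArithmeticFunction.cardFactors (a * (n : ℤ) ^ 2 + b * n + c).natAbs = e}.Infinite := by
  classical
  lift a to ℕ using ha.le with a' ha'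
  have ha1 : 1 ≤ a' := by exact_mod_cast ha
  have hD' : b ^ 2 < 4 * ((a' : ℤ) * c) := by linarith
  have hpos : ∀ n : ℤ, 0 < (a' : ℤ) * n ^ 2 + b * n + c := by
    intro n
    have h3 : 4 * (a' : ℤ) * (a' * n ^ 2 + b * n + c) =
        (2 * a' * n + b) ^ 2 + (4 * (a' * c) - b ^ 2) := by ring
    by_contra hcon
    push Not at hcon
    have h4 : 4 * (a' : ℤ) * (a' * n ^ 2 + b * n + c) ≤ 0 :=
      mul_nonpos_of_nonneg_of_nonpos (by linarith) hcon
    have := sq_nonneg (2 * (a' : ℤ) * n + b)
    linarith
  constructor
  · intro ε hε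
    obtain ⟨N₀, h⟩ := Pool.Agent.W80.GB.many_mu ha1 hD' e he ε hε
    refine ⟨N₀, fun N hN => (h N hN).trans (le_of_eq ?_)⟩
    rw [← Set.ncard_coe_finset]
    congr 2
    ext n
    simp only [Finset.coe_filter, Finset.mem_Icc, Set.mem_ofPred_eq]
    rw [abs_le]
    refine and_congr_right fun _ => exists_congr fun s => exists_congr fun m => ?_
    rw [and_left_comm]
    refine and_congr_right fun _ => and_congr_left fun _ => ?_
    constructor
    · intro h1
      have h2 : (((a' : ℤ) * n ^ 2 + b * n + c).natAbs : ℤ) = ((s ^ 2 * m : ℕ) : ℤ) := by rw [h1]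
      rw [Int.natAbs_of_nonneg (hpos n).le] at h2
      rw [h2]; push_cast; rfl
    · intro h1
      rw [h1]
      have : (s : ℤ) ^ 2 * m = ((s ^ 2 * m : ℕ) : ℤ) := by push_cast; rfl
      rw [this, Int.natAbs_natCast]
  · rw [Set.infinite_iff_exists_gt]
    intro M
    obtain ⟨n, hn1, hn2⟩ := Pool.Agent.W80.GB.infinite_pos ha1 hD' e he M
    have hn0 : 0 < n := lt_of_le_of_lt (Nat.cast_nonneg M) hn1
    lift n to ℕ using hn0.le with n' hn'
    refine ⟨n', ⟨by exact_mod_cast hn0, ?_⟩, by exact_mod_cast hn1⟩
    exact hn2
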