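import Mathlib
import Pool.Agent.W80.GC.Mu

/-!
Both signs of the Moebius and of the Liouville function at the values, at the positive integers, of
an arbitrary quadratic polynomial `a n^2 + b n + c` of positive nonsquare discriminant.

Method: the Matomaki-Radziwill theorem for the (hyperbolic) angles of the elements of a real
quadratic order (project GR of helper78), here for the elements in the residue class `1` modulo a
fixed integer `Q`, gives a positive proportion of pairs of elements of the order of discriminant
`b^2 - 4 a c` in this class, with small determinant and with norms of different parity. The product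
of the two norms is refactored, moving one prime in a prescribed residue class from one factor
to the other; it becomes, up to squares and a common factor, a product of two values of the
polynomial at positive integers.
-/

set_option autoImplicit false

/-- Let `f(n) = a n^2 + b n + c`, `a > 0`, be a quadratic polynomial with integer coefficients whose
discriminant is positive and not a square, and let `e` be `1` or `-1`. For every `ε > 0` and all
large `N` at least `N^(1-ε)` of the integers `1 ≤ n ≤ N` have `f(n) = s^2 m` with `s ≤ N^ε` and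
`μ(m) = e`. -/
theorem Pool.Agent.W80.GE.indefinite_signs (a b c : ℤ) (ha : 0 < a)
    (hD : 0 < b ^ 2 - 4 * a * c) (hsq : ¬ IsSquare (b ^ 2 - 4 * a * c))
    (e : ℤ) (he : e = 1 ∨ e = -1) (ε : ℝ) (hε : 0 < ε) :
    ∃ N₀ : ℕ, ∀ N : ℕ, N₀ ≤ N → (N : ℝ) ^ (1 - ε) ≤
      (Set.ncard {n : ℕ | 1 ≤ n ∧ n ≤ N ∧ ∃ s m : ℕ, (s : ℝ) ≤ (N : ℝ) ^ ε ∧
        a * (n : ℤ) ^ 2 + b * n + c = (s : ℤ) ^ 2 * m ∧
        ArithmeticFunction.moebius m = e} : ℝ) := by
  classical
  lift a to ℕ using ha.le with a' ha'
  have ha1 : 1 ≤ a' := by exact_mod_cast ha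
  have hD' : 4 * ((a' : ℤ) * c) < (-b) ^ 2 := by linarith
  have hsq' : ¬ IsSquare ((-b) ^ 2 - 4 * ((a' : ℤ) * c)) := by
    have h1 : (-b) ^ 2 - 4 * ((a' : ℤ) * c) = b ^ 2 - 4 * a' * c := by ring
    rw [h1]
    exact hsq
  obtain ⟨N₀, h⟩ := Pool.Agent.W80.GC.many_mu ha1 hD' hsq' e he ε hε
  refine ⟨N₀, fun N hN => (h N hN).trans (le_of_eq ?_)⟩
  rw [← Set.ncard_coe_finset]
  congr 2
  ext n
  simp only [Finset.coe_filter, Finset.mem_Icc, Set.mem_ofPred_eq]
  rw [and_assoc]
  refine and_congr_right fun _ => and_congr_right fun _ => exists_congr fun s =>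
    exists_congr fun m => ?_
  rw [and_left_comm]
  refine and_congr_right fun _ => and_congr_left fun _ => ?_
  have h1 : Pool.Agent.W80.GC.Fn a' (-b) c n = a' * (n : ℤ) ^ 2 + b * n + c := by
    unfold Pool.Agent.W80.GC.Fn
    ring
  rw [h1]
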